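import Mathlib

open Filter Topology

namespace Pool.Agent.Results.MP_c4013e_an.NoPNormableSubspace

section Defs

variable (𝕜 : Type*) [RCLike 𝕜] {X : Type*} [AddCommGroup X] [Module 𝕜 X]

/-- `N` is a quasi-norm on the vector space `X`. -/
structure IsQuasiNorm (N : X → ℝ) : Prop where
  nonneg : ∀ v, 0 ≤ N v
  eq_zero : ∀ v, N v = 0 → v = 0
  smul : ∀ (c : 𝕜) (v : X), N (c • v) = ‖c‖ * N v
  quasi : ∃ κ : ℝ, 1 ≤ κ ∧ ∀ v w, N (v + w) ≤ κ * (N v + N w)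

/-- `N` is a `p`-norm on the vector space `X`. -/
structure IsPNorm (p : ℝ) (N : X → ℝ) : Prop where
  quasiNorm : IsQuasiNorm 𝕜 N
  add : ∀ v w, N (v + w) ^ p ≤ N v ^ p + N w ^ p

/-- The vector space `X` is complete for `N`. -/
def IsCompleteFor (N : X → ℝ) : Prop :=
  ∀ u : ℕ → X, (∀ ε : ℝ, 0 < ε → ∃ M, ∀ m ≥ M, ∀ n ≥ M, N (u m - u n) < ε) →
    ∃ v, ∀ ε : ℝ, 0 < ε → ∃ M, ∀ n ≥ M, N (u n - v) < ε

/-- `(x_n)` is a basis of `(X, N)` with coordinate functionals `(f_n)`. -/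
structure IsBasis (N : X → ℝ) (x : ℕ → X) (f : ℕ → X →ₗ[𝕜] 𝕜) : Prop where
  dense : ∀ v, ∀ ε : ℝ, 0 < ε → ∃ w ∈ Submodule.span 𝕜 (Set.range x), N (v - w) < ε
  biorth : ∀ k n, f k (x n) = if k = n then 1 else 0
  seminormalized : ∃ c C : ℝ, 0 < c ∧ ∀ n, c ≤ N (x n) ∧ N (x n) ≤ C
  bounded : ∃ C : ℝ, ∀ n v, ‖f n v‖ ≤ C * N v

/-- Bidemocracy: `φ(m) φ*(m) ≤ C m` for all `m`, written out without suprema. -/
def IsBidemocratic (N : X → ℝ) (x : ℕ → X) (f : ℕ → X →ₗ[𝕜] 𝕜) : Prop :=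
  ∃ C : ℝ, ∀ (m : ℕ) (A B : Finset ℕ), A.card ≤ m → B.card ≤ m → ∀ v,
    N (∑ n ∈ A, x n) * ‖∑ n ∈ B, f n v‖ ≤ C * m * N v

/-- The subspace `Y` of `(X, N)` has an equivalent `p`-norm. -/
def HasEquivalentPNorm (N : X → ℝ) (p : ℝ) (Y : Submodule 𝕜 X) : Prop :=
  ∃ (M : Y → ℝ) (C : ℝ), 1 ≤ C ∧ IsPNorm 𝕜 p M ∧ ∀ y : Y, C⁻¹ * N y ≤ M y ∧ M y ≤ C * N y

end Defs

/-! ### Weights -/

section Weights

variable {q : ℝ}

/-- The weights. -/
noncomputable def w (q : ℝ) (j : ℕ) : ℝ := ((j : ℝ) + 1) ^ (q - 1)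

theorem w_pos (j : ℕ) : 0 < w q j := Real.rpow_pos_of_pos (by positivity) _

theorem w_zero : w q 0 = 1 := by unfold w; norm_num

theorem w_anti (hq : q < 1) {i j : ℕ} (h : i ≤ j) : w q j ≤ w q i := by
  unfold w
  apply Real.rpow_le_rpow_of_nonpos (by positivity)
  · have : (i : ℝ) ≤ j := by exact_mod_cast h
    linarith
  · linarith

theorem w_le_one (hq : q < 1) (j : ℕ) : w q j ≤ 1 := by
  rw [← w_zero (q := q)]; exact w_anti hq (Nat.zero_le _)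

theorem w_double (hq0 : 0 < q) (hq : q < 1) {T j : ℕ} (h : T ≤ j) : w q j / 2 ≤ w q (j + T) := by
  unfold w
  have hT : (T : ℝ) ≤ j := by exact_mod_cast h
  have h1 : (2 * ((j : ℝ) + 1)) ^ (q - 1) ≤ (((j + T : ℕ) : ℝ) + 1) ^ (q - 1) := by
    apply Real.rpow_le_rpow_of_nonpos (by positivity)
    · push_cast; linarith
    · linarith
  have h2 : (2 * ((j : ℝ) + 1)) ^ (q - 1) = 2 ^ (q - 1) * ((j : ℝ) + 1) ^ (q - 1) :=
    Real.mul_rpow (by norm_num) (by positivity)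
  have h3 : (1 / 2 : ℝ) ≤ 2 ^ (q - 1) := by
    have : (1 / 2 : ℝ) = 2 ^ (-1 : ℝ) := by rw [Real.rpow_neg_one]; norm_num
    rw [this]
    exact Real.rpow_le_rpow_of_exponent_le (by norm_num) (by linarith)
  have h4 : (0 : ℝ) ≤ ((j : ℝ) + 1) ^ (q - 1) := by positivity
  calc ((j : ℝ) + 1) ^ (q - 1) / 2 = (1 / 2) * ((j : ℝ) + 1) ^ (q - 1) := by ring
    _ ≤ 2 ^ (q - 1) * ((j : ℝ) + 1) ^ (q - 1) := mul_le_mul_of_nonneg_right h3 h4
    _ ≤ _ := by rw [← h2]; exact h1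

theorem sum_w_lower (hq : q < 1) (hq0 : 0 < q) (n : ℕ) :
    (n : ℝ) ^ q ≤ ∑ j ∈ Finset.range n, w q j := by
  rcases Nat.eq_zero_or_pos n with rfl | hn
  · simp [Real.zero_rpow hq0.ne']
  · have h1 : ∀ j ∈ Finset.range n, (n : ℝ) ^ (q - 1) ≤ w q j := by
      intro j hj
      rw [Finset.mem_range] at hj
      unfold w
      apply Real.rpow_le_rpow_of_nonpos (by positivity)
      · exact_mod_cast hj
      · linarith
    have h2 := Finset.sum_le_sum h1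
    rw [Finset.sum_const, Finset.card_range, nsmul_eq_mul] at h2
    have hn' : (0 : ℝ) < n := by exact_mod_cast hn
    have h3 : (n : ℝ) ^ q = n * (n : ℝ) ^ (q - 1) := by
      rw [Real.rpow_sub_one hn'.ne']; field_simp
    rw [h3]; exact h2

theorem sum_w_upper (hq : q < 1) (hq0 : 0 < q) (n : ℕ) :
    ∑ j ∈ Finset.range n, w q j ≤ (1 / q) * (n : ℝ) ^ q := by
  induction n with
  | zero => simp [Real.zero_rpow hq0.ne']
  | succ n ih =>
    rw [Finset.sum_range_succ]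
    have hn : (0 : ℝ) < (n : ℝ) + 1 := by positivity
    -- `n^q ≤ (n+1)^q (1 - q/(n+1))`
    have h1 : (1 + (-(1 / ((n : ℝ) + 1)))) ^ q ≤ 1 + q * (-(1 / ((n : ℝ) + 1))) := by
      apply rpow_one_add_le_one_add_mul_self _ hq0.le hq.le
      rw [neg_le_neg_iff, div_le_one hn]; linarith [Nat.cast_nonneg (α := ℝ) n]
    have h2 : (n : ℝ) = ((n : ℝ) + 1) * (1 + (-(1 / ((n : ℝ) + 1)))) := by field_simp; ring
    have h3 : (n : ℝ) ^ q ≤ ((n : ℝ) + 1) ^ q * (1 + q * (-(1 / ((n : ℝ) + 1)))) := by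
      have h4 : 0 ≤ 1 + (-(1 / ((n : ℝ) + 1))) := by
        have : 1 / ((n : ℝ) + 1) ≤ 1 := by
          rw [div_le_one hn]; linarith [Nat.cast_nonneg (α := ℝ) n]
        linarith
      calc (n : ℝ) ^ q = (((n : ℝ) + 1) * (1 + (-(1 / ((n : ℝ) + 1))))) ^ q := by rw [← h2]
        _ = ((n : ℝ) + 1) ^ q * (1 + (-(1 / ((n : ℝ) + 1)))) ^ q := Real.mul_rpow hn.le h4
        _ ≤ _ := mul_le_mul_of_nonneg_left h1 (by positivity)
    have h5 : w q n = ((n : ℝ) + 1) ^ q * (1 / ((n : ℝ) + 1)) := by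
      unfold w; rw [Real.rpow_sub_one hn.ne']; ring
    have h6 : (1 / q) * (n : ℝ) ^ q ≤ (1 / q) * ((n : ℝ) + 1) ^ q - w q n := by
      have := mul_le_mul_of_nonneg_left h3 (by positivity : 0 ≤ 1 / q)
      refine this.trans (le_of_eq ?_)
      rw [h5]; field_simp; ring
    push_cast
    linarith

/-- The sum of the weights over a finite set of positions. -/
theorem sum_w_set (hq : q < 1) (hq0 : 0 < q) {m : ℕ} {E : Finset ℕ} (hE : E.card ≤ m) :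
    ∑ e ∈ E, w q e ≤ (1 / q + 1) * (m : ℝ) ^ q := by
  classical
  rcases Nat.eq_zero_or_pos m with rfl | hm
  · have : E = ∅ := Finset.card_eq_zero.mp (by omega)
    subst this
    simp [Real.zero_rpow hq0.ne']
  have hm' : (0 : ℝ) < m := by exact_mod_cast hm
  rw [← Finset.sum_filter_add_sum_filter_not E (fun e => e < m)]
  have h1 : ∑ e ∈ E.filter (fun e => e < m), w q e ≤ ∑ j ∈ Finset.range m, w q j := by
    apply Finset.sum_le_sum_of_subset_of_nonneg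
    · intro e he
      rw [Finset.mem_filter] at he
      exact Finset.mem_range.mpr he.2
    · intro i _ _; exact (w_pos i).le
  have h2 : ∑ e ∈ E.filter (fun e => ¬ e < m), w q e ≤ (m : ℝ) ^ q := by
    have h3 : ∀ e ∈ E.filter (fun e => ¬ e < m), w q e ≤ (m : ℝ) ^ (q - 1) := by
      intro e he
      rw [Finset.mem_filter, not_lt] at he
      unfold w
      apply Real.rpow_le_rpow_of_nonpos hm' _ (by linarith)
      have : (m : ℝ) ≤ e := by exact_mod_cast he.2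
      linarith
    have h4 := Finset.sum_le_sum h3
    rw [Finset.sum_const, nsmul_eq_mul] at h4
    have h5 : (m : ℝ) ^ q = m * (m : ℝ) ^ (q - 1) := by
      rw [Real.rpow_sub_one hm'.ne']; field_simp
    rw [h5]
    refine h4.trans (mul_le_mul_of_nonneg_right ?_ (by positivity))
    exact_mod_cast (Finset.card_filter_le _ _).trans hE
  have h6 := sum_w_upper hq hq0 m
  linarith [mul_comm (1 / q + 1) ((m : ℝ) ^ q), mul_add ((m : ℝ) ^ q) (1 / q) 1]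

/-- Ranking a finite set. -/
theorem exists_rank (g : ℕ → ℝ) (B : Finset ℕ) : ∃ ρ : ℕ → ℕ, Set.InjOn ρ (B : Set ℕ) ∧
    (∀ k ∈ B, ρ k < B.card) ∧ ∀ b ∈ B, ∀ k ∈ B, ρ b ≤ ρ k → g k ≤ g b := by
  classical
  induction B using Finset.induction_on_min_value g with
  | empty => exact ⟨id, by simp, by simp, by simp⟩
  | insert a s ha hmin ih =>
    obtain ⟨ρ, h1, h2, h3⟩ := ih
    have hne : ∀ k ∈ s, k ≠ a := fun k hk h => ha (h ▸ hk)
    refine ⟨Function.update ρ a s.card, ?_, ?_, ?_⟩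
    · intro b hb k hk hbk
      rw [Finset.mem_coe, Finset.mem_insert] at hb hk
      rcases hb with rfl | hb <;> rcases hk with rfl | hk
      · rfl
      · rw [Function.update_self, Function.update_of_ne (hne k hk)] at hbk
        have := h2 k hk; omega
      · rw [Function.update_self, Function.update_of_ne (hne b hb)] at hbk
        have := h2 b hb; omega
      · rw [Function.update_of_ne (hne k hk), Function.update_of_ne (hne b hb)] at hbk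
        exact h1 hb hk hbk
    · intro k hk
      rw [Finset.card_insert_of_notMem ha]
      rw [Finset.mem_insert] at hk
      rcases hk with rfl | hk
      · rw [Function.update_self]; omega
      · rw [Function.update_of_ne (hne k hk)]; have := h2 k hk; omega
    · intro b hb k hk hbk
      rw [Finset.mem_insert] at hb hk
      rcases hb with rfl | hb <;> rcases hk with rfl | hk
      · exact le_rfl
      · rw [Function.update_self, Function.update_of_ne (hne k hk)] at hbk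
        have := h2 k hk; omega
      · exact hmin b hb
      · rw [Function.update_of_ne (hne k hk), Function.update_of_ne (hne b hb)] at hbk
        exact h3 b hb k hk hbk

end Weights


/-! ### The functionals -/

section Functionals

variable {𝕜 : Type*} [RCLike 𝕜] {q : ℝ}

/-- A finite set of coordinates with distinct positions. -/
def Idx : Type := {i : Finset ℕ × (ℕ → ℕ) // Set.InjOn i.2 (i.1 : Set ℕ)}

instance : Nonempty Idx := ⟨⟨(∅, id), by simp⟩⟩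

/-- The functionals whose supremum is the `q`-th power of the norm. -/
noncomputable def S (q : ℝ) (i : Idx) (f : ℕ → 𝕜) : ℝ := ∑ k ∈ i.1.1, w q (i.1.2 k) * ‖f k‖ ^ q

theorem S_nonneg (i : Idx) (f : ℕ → 𝕜) : 0 ≤ S q i f :=
  Finset.sum_nonneg (fun _ _ => mul_nonneg (w_pos _).le (by positivity))

theorem S_add (hq0 : 0 < q) (hq : q < 1) (i : Idx) (f g : ℕ → 𝕜) :
    S q i (f + g) ≤ S q i f + S q i g := by
  unfold S
  rw [← Finset.sum_add_distrib]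
  refine Finset.sum_le_sum (fun k _ => ?_)
  rw [← mul_add]
  apply mul_le_mul_of_nonneg_left _ (w_pos _).le
  calc ‖(f + g) k‖ ^ q ≤ (‖f k‖ + ‖g k‖) ^ q :=
        Real.rpow_le_rpow (norm_nonneg _) (norm_add_le _ _) hq0.le
    _ ≤ _ := Real.rpow_add_le_add_rpow (norm_nonneg _) (norm_nonneg _) hq0.le hq.le

theorem S_smul (i : Idx) (c : 𝕜) (f : ℕ → 𝕜) : S q i (c • f) = ‖c‖ ^ q * S q i f := by
  unfold S
  rw [Finset.mul_sum]
  refine Finset.sum_congr rfl (fun k _ => ?_)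
  rw [Pi.smul_apply, norm_smul, Real.mul_rpow (norm_nonneg _) (norm_nonneg _)]
  ring

theorem S_mono (hq0 : 0 < q) (i : Idx) {f g : ℕ → 𝕜} (h : ∀ k, ‖f k‖ ≤ ‖g k‖) :
    S q i f ≤ S q i g :=
  Finset.sum_le_sum (fun k _ => mul_le_mul_of_nonneg_left
    (Real.rpow_le_rpow (norm_nonneg _) (h k) hq0.le) (w_pos _).le)

/-- The tail of a function. -/
def tl (M : ℕ) (f : ℕ → 𝕜) : ℕ → 𝕜 := fun k => if k < M then 0 else f k

theorem tl_norm_le (M : ℕ) (f : ℕ → 𝕜) (k : ℕ) : ‖tl M f k‖ ≤ ‖f k‖ := by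
  unfold tl; split_ifs <;> simp

theorem tl_norm_mono {M M' : ℕ} (h : M ≤ M') (f : ℕ → 𝕜) (k : ℕ) : ‖tl M' f k‖ ≤ ‖tl M f k‖ := by
  unfold tl
  split_ifs with h1 h2
  · exact le_rfl
  · rw [norm_zero]; exact norm_nonneg _
  · omega
  · exact le_rfl

theorem tl_add (M : ℕ) (f g : ℕ → 𝕜) : tl M (f + g) = tl M f + tl M g := by
  funext k; unfold tl; simp only [Pi.add_apply]; split_ifs <;> simp

theorem tl_smul (M : ℕ) (c : 𝕜) (f : ℕ → 𝕜) : tl M (c • f) = c • tl M f := by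
  funext k; unfold tl; simp only [Pi.smul_apply]; split_ifs <;> simp

/-- Functions with small tails. -/
def Small (q : ℝ) (f : ℕ → 𝕜) : Prop := ∀ ε : ℝ, 0 < ε → ∃ M, ∀ i, S q i (tl M f) ≤ ε

theorem head_bound (hq0 : 0 < q) (hq : q < 1) (M : ℕ) (f : ℕ → 𝕜) (i : Idx) :
    S q i (f - tl M f) ≤ ∑ k ∈ Finset.range M, ‖f k‖ ^ q := by
  classical
  unfold S
  calc ∑ k ∈ i.1.1, w q (i.1.2 k) * ‖(f - tl M f) k‖ ^ q
      ≤ ∑ k ∈ i.1.1, (if k ∈ Finset.range M then ‖f k‖ ^ q else 0) := by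
        refine Finset.sum_le_sum (fun k _ => ?_)
        unfold tl
        simp only [Pi.sub_apply, Finset.mem_range]
        split_ifs with h
        · rw [sub_zero]
          have : 0 ≤ ‖f k‖ ^ q := by positivity
          nlinarith [w_le_one hq (i.1.2 k)]
        · rw [sub_self, norm_zero, Real.zero_rpow hq0.ne', mul_zero]
    _ = ∑ k ∈ i.1.1 ∩ Finset.range M, ‖f k‖ ^ q := by rw [Finset.sum_ite_mem]
    _ ≤ _ := Finset.sum_le_sum_of_subset_of_nonneg Finset.inter_subset_right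
        (fun _ _ _ => by positivity)

theorem Small.bdd (hq0 : 0 < q) (hq : q < 1) {f : ℕ → 𝕜} (hf : Small q f) :
    BddAbove (Set.range (fun i => S q i f)) := by
  obtain ⟨M, hM⟩ := hf 1 one_pos
  refine ⟨∑ k ∈ Finset.range M, ‖f k‖ ^ q + 1, ?_⟩
  rintro _ ⟨i, rfl⟩
  have h1 := S_add hq0 hq i (f - tl M f) (tl M f)
  rw [sub_add_cancel] at h1
  have h2 := head_bound hq0 hq M f i
  have h3 := hM i
  show S q i f ≤ _
  linarith

/-- The `q`-th power of the norm. -/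
noncomputable def D (q : ℝ) (f : ℕ → 𝕜) : ℝ := ⨆ i, S q i f

theorem S_le_D (hq0 : 0 < q) (hq : q < 1) {f : ℕ → 𝕜} (hf : Small q f) (i : Idx) :
    S q i f ≤ D q f := le_ciSup (hf.bdd hq0 hq) i

theorem D_nonneg (f : ℕ → 𝕜) : 0 ≤ D q f := Real.iSup_nonneg (fun i => S_nonneg i f)

theorem D_le {f : ℕ → 𝕜} {R : ℝ} (h : ∀ i, S q i f ≤ R) : D q f ≤ R := ciSup_le h

theorem Small.add (hq0 : 0 < q) (hq : q < 1) {f g : ℕ → 𝕜} (hf : Small q f) (hg : Small q g) :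
    Small q (f + g) := by
  intro ε hε
  obtain ⟨M1, h1⟩ := hf (ε / 2) (by positivity)
  obtain ⟨M2, h2⟩ := hg (ε / 2) (by positivity)
  refine ⟨max M1 M2, fun i => ?_⟩
  rw [tl_add]
  have h3 := S_add hq0 hq i (tl (max M1 M2) f) (tl (max M1 M2) g)
  have h4 := S_mono hq0 i (tl_norm_mono (le_max_left M1 M2) f)
  have h5 := S_mono hq0 i (tl_norm_mono (le_max_right M1 M2) g)
  linarith [h1 i, h2 i]

theorem Small.smul (hq0 : 0 < q) (c : 𝕜) {f : ℕ → 𝕜} (hf : Small q f) : Small q (c • f) := by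
  intro ε hε
  by_cases hc : c = 0
  · refine ⟨0, fun i => ?_⟩
    rw [tl_smul, S_smul, hc, norm_zero, Real.zero_rpow hq0.ne', zero_mul]
    exact hε.le
  · have hc' : 0 < ‖c‖ ^ q := Real.rpow_pos_of_pos (norm_pos_iff.mpr hc) _
    obtain ⟨M, hM⟩ := hf (ε / ‖c‖ ^ q) (by positivity)
    refine ⟨M, fun i => ?_⟩
    rw [tl_smul, S_smul]
    have := mul_le_mul_of_nonneg_left (hM i) hc'.le
    rwa [mul_div_cancel₀ _ hc'.ne'] at this

theorem D_add (hq0 : 0 < q) (hq : q < 1) {f g : ℕ → 𝕜} (hf : Small q f) (hg : Small q g) :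
    D q (f + g) ≤ D q f + D q g :=
  D_le (fun i => (S_add hq0 hq i f g).trans (add_le_add (S_le_D hq0 hq hf i) (S_le_D hq0 hq hg i)))

theorem D_smul (c : 𝕜) (f : ℕ → 𝕜) : D q (c • f) = ‖c‖ ^ q * D q f := by
  unfold D
  simp only [S_smul]
  rw [Real.mul_iSup_of_nonneg (by positivity)]

/-- The index of a single coordinate. -/
def single (k : ℕ) : Idx := ⟨({k}, fun _ => 0), by simp⟩

theorem S_single (f : ℕ → 𝕜) (k : ℕ) : S q (single k) f = ‖f k‖ ^ q := by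
  unfold S single
  simp [w_zero]

theorem coord_le (hq0 : 0 < q) (hq : q < 1) {f : ℕ → 𝕜} (hf : Small q f) (k : ℕ) :
    ‖f k‖ ^ q ≤ D q f := by
  rw [← S_single f k]; exact S_le_D hq0 hq hf _

theorem small_of_support {f : ℕ → 𝕜} (hq0 : 0 < q) {M : ℕ} (h : ∀ k, M ≤ k → f k = 0) :
    Small q f := by
  intro ε hε
  refine ⟨M, fun i => ?_⟩
  have : tl M f = (0 : 𝕜) • f := by
    funext k
    unfold tl
    split_ifs with hk
    · simp
    · rw [h k (by omega)]; simp [h k (by omega)]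
  rw [this, S_smul, norm_zero, Real.zero_rpow hq0.ne', zero_mul]
  exact hε.le

/-- Flat sum estimate: a set of coordinates of moderately large values. -/
theorem D_lower_card (hq0 : 0 < q) (hq : q < 1) {f : ℕ → 𝕜} (hf : Small q f) {B : Finset ℕ} {δ : ℝ}
    (hδ : 0 ≤ δ) (hB : ∀ k ∈ B, δ ≤ ‖f k‖ ^ q) : δ * (B.card : ℝ) ^ q ≤ D q f := by
  classical
  obtain ⟨ρ, h1, h2, -⟩ := exists_rank (fun _ => 0) B
  have h3 : B.image ρ = Finset.range B.card := by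
    apply Finset.eq_of_subset_of_card_le
    · intro a ha
      obtain ⟨b, hb, rfl⟩ := Finset.mem_image.mp ha
      exact Finset.mem_range.mpr (h2 b hb)
    · rw [Finset.card_range, Finset.card_image_of_injOn h1]
  refine le_trans ?_ (S_le_D hq0 hq hf ⟨(B, ρ), h1⟩)
  calc δ * (B.card : ℝ) ^ q ≤ δ * ∑ j ∈ Finset.range B.card, w q j :=
        mul_le_mul_of_nonneg_left (sum_w_lower hq hq0 _) hδ
    _ = ∑ k ∈ B, w q (ρ k) * δ := by
        rw [← h3, Finset.sum_image h1, Finset.mul_sum]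
        exact Finset.sum_congr rfl (fun _ _ => mul_comm _ _)
    _ ≤ _ := Finset.sum_le_sum (fun k hk => mul_le_mul_of_nonneg_left (hB k hk) (w_pos _).le)

/-- The `ℓ₁` bound. -/
theorem l1_bound (hq0 : 0 < q) (hq : q < 1) {f : ℕ → 𝕜} (hf : Small q f) (B : Finset ℕ) :
    ∑ k ∈ B, ‖f k‖ ≤ D q f ^ q⁻¹ := by
  classical
  obtain ⟨ρ, h1, h2, h3⟩ := exists_rank (fun k => ‖f k‖) B
  have himg : B.image ρ = Finset.range B.card := by
    apply Finset.eq_of_subset_of_card_le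
    · intro a ha
      obtain ⟨b, hb, rfl⟩ := Finset.mem_image.mp ha
      exact Finset.mem_range.mpr (h2 b hb)
    · rw [Finset.card_range, Finset.card_image_of_injOn h1]
  have hD := D_nonneg (q := q) f
  set R := D q f ^ q⁻¹ with hR
  have hR0 : 0 ≤ R := by positivity
  have hRq : R ^ q = D q f := Real.rpow_inv_rpow hD hq0.ne'
  have key : ∀ k ∈ B, ‖f k‖ ≤ w q (ρ k) * ‖f k‖ ^ q * R ^ (1 - q) := by
    intro k hk
    rcases eq_or_lt_of_le (norm_nonneg (f k)) with h0 | h0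
    · rw [← h0, Real.zero_rpow hq0.ne']; simp
    have h4 : ‖f k‖ ^ q * (((B.filter (fun b => ρ b ≤ ρ k)).card : ℝ)) ^ q ≤ D q f := by
      apply D_lower_card hq0 hq hf (by positivity)
      intro b hb
      rw [Finset.mem_filter] at hb
      exact Real.rpow_le_rpow (norm_nonneg _) (h3 b hb.1 k hk hb.2) hq0.le
    have h5 : (B.filter (fun b => ρ b ≤ ρ k)).card = ρ k + 1 := by
      have h6 : (B.filter (fun b => ρ b ≤ ρ k)).image ρ = Finset.range (ρ k + 1) := by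
        ext a
        rw [Finset.mem_image, Finset.mem_range]
        constructor
        · rintro ⟨b, hb, rfl⟩
          rw [Finset.mem_filter] at hb
          omega
        · intro ha
          have h7 : a ∈ B.image ρ := by
            rw [himg, Finset.mem_range]
            have := h2 k hk; omega
          obtain ⟨b, hb, rfl⟩ := Finset.mem_image.mp h7
          exact ⟨b, Finset.mem_filter.mpr ⟨hb, by omega⟩, rfl⟩
      have h8 : ((B.filter (fun b => ρ b ≤ ρ k)).image ρ).card = (B.filter (fun b => ρ b ≤ ρ k)).card :=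
        Finset.card_image_of_injOn (fun a ha b hb hab => h1 (Finset.mem_filter.mp ha).1
          (Finset.mem_filter.mp hb).1 hab)
      rw [← h8, h6, Finset.card_range]
    rw [h5] at h4
    have hρ : (0 : ℝ) < (ρ k : ℝ) + 1 := by positivity
    -- `‖f k‖ (ρ k + 1) ≤ R`
    have h9 : ‖f k‖ * ((ρ k : ℝ) + 1) ≤ R := by
      rw [← Real.rpow_le_rpow_iff (by positivity) hR0 hq0, hRq, Real.mul_rpow (norm_nonneg _) hρ.le]
      push_cast at h4; exact h4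
    have h10 : ‖f k‖ ≤ R / ((ρ k : ℝ) + 1) := by rw [le_div_iff₀ hρ]; exact h9
    have h11 : ‖f k‖ ^ (1 - q) ≤ (R / ((ρ k : ℝ) + 1)) ^ (1 - q) :=
      Real.rpow_le_rpow (norm_nonneg _) h10 (by linarith)
    rw [Real.div_rpow hR0 hρ.le] at h11
    have h12 : w q (ρ k) = (((ρ k : ℝ) + 1) ^ (1 - q))⁻¹ := by
      unfold w
      rw [← Real.rpow_neg hρ.le]; congr 1; ring
    have h13 : ‖f k‖ = ‖f k‖ ^ q * ‖f k‖ ^ (1 - q) := by
      rw [← Real.rpow_add h0]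
      rw [show q + (1 - q) = 1 by ring, Real.rpow_one]
    calc ‖f k‖ = ‖f k‖ ^ q * ‖f k‖ ^ (1 - q) := h13
      _ ≤ ‖f k‖ ^ q * (R ^ (1 - q) / ((ρ k : ℝ) + 1) ^ (1 - q)) :=
          mul_le_mul_of_nonneg_left h11 (by positivity)
      _ = _ := by rw [h12]; ring
  calc ∑ k ∈ B, ‖f k‖ ≤ ∑ k ∈ B, w q (ρ k) * ‖f k‖ ^ q * R ^ (1 - q) := Finset.sum_le_sum key
    _ = S q ⟨(B, ρ), h1⟩ f * R ^ (1 - q) := by unfold S; rw [Finset.sum_mul]
    _ ≤ D q f * R ^ (1 - q) :=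
        mul_le_mul_of_nonneg_right (S_le_D hq0 hq hf _) (by positivity)
    _ = R := by
        rw [← hRq]
        rcases eq_or_lt_of_le hR0 with h0 | h0
        · rw [← h0, Real.zero_rpow hq0.ne', zero_mul]
        · rw [← Real.rpow_add h0, show q + (1 - q) = 1 by ring, Real.rpow_one]

end Functionals


/-! ### The space -/

section Space

variable (𝕜 : Type) [RCLike 𝕜] {q : ℝ} (hq0 : 0 < q) (hq : q < 1)

/-- The Lorentz space `ℓ_{1,q}`. -/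
def X (hq0 : 0 < q) (hq : q < 1) : Submodule 𝕜 (ℕ → 𝕜) where
  carrier := {f | Small q f}
  add_mem' := fun ha hb => Small.add hq0 hq ha hb
  zero_mem' := small_of_support hq0 (M := 0) (fun _ _ => rfl)
  smul_mem' := fun c _ ha => Small.smul hq0 c ha

/-- The norm. -/
noncomputable def N (v : X 𝕜 hq0 hq) : ℝ := D q (v : ℕ → 𝕜) ^ q⁻¹

theorem N_rpow (v : X 𝕜 hq0 hq) : N 𝕜 hq0 hq v ^ q = D q (v : ℕ → 𝕜) :=
  Real.rpow_inv_rpow (D_nonneg _) hq0.ne'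

theorem N_nonneg (v : X 𝕜 hq0 hq) : 0 ≤ N 𝕜 hq0 hq v := Real.rpow_nonneg (D_nonneg _) _

theorem N_lt {v : X 𝕜 hq0 hq} {ε : ℝ} (hε : 0 < ε) (h : D q (v : ℕ → 𝕜) < ε ^ q) :
    N 𝕜 hq0 hq v < ε := by
  rw [← N_rpow 𝕜 hq0 hq] at h
  exact (Real.rpow_lt_rpow_iff (N_nonneg 𝕜 hq0 hq v) hε.le hq0).mp h

theorem D_lt {v : X 𝕜 hq0 hq} {ε : ℝ} (hε : 0 < ε) (h : N 𝕜 hq0 hq v < ε ^ q⁻¹) :
    D q (v : ℕ → 𝕜) < ε := by
  rw [← N_rpow 𝕜 hq0 hq]
  calc N 𝕜 hq0 hq v ^ q < (ε ^ q⁻¹) ^ q := Real.rpow_lt_rpow (N_nonneg 𝕜 hq0 hq v) h hq0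
    _ = ε := Real.rpow_inv_rpow hε.le hq0.ne'

theorem eq_zero_of_D {f : ℕ → 𝕜} (hf : Small q f) (h : D q f = 0) (hq0 : 0 < q) (hq : q < 1) :
    f = 0 := by
  funext k
  have h1 := coord_le hq0 hq hf k
  rw [h] at h1
  have h2 : ‖f k‖ ^ q = 0 := le_antisymm h1 (by positivity)
  rw [Real.rpow_eq_zero (norm_nonneg _) hq0.ne', norm_eq_zero] at h2
  exact h2

theorem isPNorm : IsPNorm 𝕜 q (N 𝕜 hq0 hq) := by
  refine ⟨⟨N_nonneg 𝕜 hq0 hq, ?_, ?_, 2 ^ q⁻¹, ?_, ?_⟩, ?_⟩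
  · intro v hv
    have h1 := N_rpow 𝕜 hq0 hq v
    rw [hv, Real.zero_rpow hq0.ne'] at h1
    exact Subtype.ext (eq_zero_of_D 𝕜 v.2 h1.symm hq0 hq)
  · intro c v
    show D q (c • (v : ℕ → 𝕜)) ^ q⁻¹ = _
    rw [D_smul, Real.mul_rpow (by positivity) (D_nonneg _), Real.rpow_rpow_inv (norm_nonneg _) hq0.ne']
    rfl
  · exact Real.one_le_rpow (by norm_num) (by positivity)
  · intro v w
    have h1 : D q ((v + w : X 𝕜 hq0 hq) : ℕ → 𝕜) ≤ D q (v : ℕ → 𝕜) + D q (w : ℕ → 𝕜) :=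
      D_add hq0 hq v.2 w.2
    rw [← N_rpow 𝕜 hq0 hq v, ← N_rpow 𝕜 hq0 hq w] at h1
    set a := N 𝕜 hq0 hq v with ha
    set b := N 𝕜 hq0 hq w with hb
    have ha0 : 0 ≤ a := N_nonneg 𝕜 hq0 hq v
    have hb0 : 0 ≤ b := N_nonneg 𝕜 hq0 hq w
    have h2 : D q ((v + w : X 𝕜 hq0 hq) : ℕ → 𝕜) ≤ 2 * (a + b) ^ q := by
      have h3 : a ^ q ≤ (a + b) ^ q := Real.rpow_le_rpow ha0 (by linarith) hq0.le
      have h4 : b ^ q ≤ (a + b) ^ q := Real.rpow_le_rpow hb0 (by linarith) hq0.le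
      linarith
    calc N 𝕜 hq0 hq (v + w) ≤ (2 * (a + b) ^ q) ^ q⁻¹ :=
          Real.rpow_le_rpow (D_nonneg _) h2 (by positivity)
      _ = 2 ^ q⁻¹ * (a + b) := by
          rw [Real.mul_rpow (by norm_num) (by positivity), Real.rpow_rpow_inv (by positivity) hq0.ne']
  · intro v w
    rw [N_rpow, N_rpow, N_rpow]
    exact D_add hq0 hq v.2 w.2

theorem isComplete : IsCompleteFor (N 𝕜 hq0 hq) := by
  intro u hu
  -- Cauchy in `D`
  have hC : ∀ ε : ℝ, 0 < ε → ∃ M, ∀ m ≥ M, ∀ n ≥ M, D q ((u m : ℕ → 𝕜) - (u n : ℕ → 𝕜)) < ε := by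
    intro ε hε
    obtain ⟨M, hM⟩ := hu (ε ^ q⁻¹) (by positivity)
    refine ⟨M, fun m hm n hn => ?_⟩
    have h := D_lt 𝕜 hq0 hq (v := u m - u n) hε (hM m hm n hn)
    rwa [Submodule.coe_sub] at h
  -- pointwise limits
  have hcau : ∀ k, CauchySeq (fun n => (u n : ℕ → 𝕜) k) := by
    intro k
    rw [Metric.cauchySeq_iff]
    intro ε hε
    obtain ⟨M, hM⟩ := hC (ε ^ q) (by positivity)
    refine ⟨M, fun m hm n hn => ?_⟩
    rw [dist_eq_norm]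
    have h0 := coord_le hq0 hq (u m - u n).2 k
    rw [Submodule.coe_sub] at h0
    have h1 := h0.trans_lt (hM m hm n hn)
    exact (Real.rpow_lt_rpow_iff (norm_nonneg _) hε.le hq0).mp h1
  choose v hv using fun k => cauchySeq_tendsto_of_complete (hcau k)
  have hlim : ∀ (ε : ℝ), 0 < ε → ∃ M, ∀ m ≥ M, ∀ i, S q i ((u m : ℕ → 𝕜) - v) ≤ ε := by
    intro ε hε
    obtain ⟨M, hM⟩ := hC ε hε
    refine ⟨M, fun m hm i => ?_⟩
    have h1 : Tendsto (fun n => S q i ((u m : ℕ → 𝕜) - (u n : ℕ → 𝕜))) atTop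
        (𝓝 (S q i ((u m : ℕ → 𝕜) - v))) := by
      unfold S
      apply tendsto_finsetSum
      intro k _
      apply Tendsto.const_mul
      apply Tendsto.rpow_const _ (Or.inr hq0.le)
      exact (tendsto_const_nhds.sub (hv k)).norm
    apply le_of_tendsto h1
    filter_upwards [eventually_ge_atTop M] with n hn
    have h0 := S_le_D hq0 hq (u m - u n).2 i
    rw [Submodule.coe_sub] at h0
    exact h0.trans (hM m hm n hn).le
  have hsmall : Small q v := by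
    intro ε hε
    obtain ⟨m, hm⟩ := hlim (ε / 2) (by positivity)
    obtain ⟨M, hM⟩ := (u m).2 (ε / 2) (by positivity)
    refine ⟨M, fun i => ?_⟩
    have h1 := hm m le_rfl i
    have h2 : tl M v = tl M (u m : ℕ → 𝕜) + tl M ((-1 : 𝕜) • ((u m : ℕ → 𝕜) - v)) := by
      rw [← tl_add]
      congr 1
      funext k
      simp
    rw [h2]
    have h3 := S_add hq0 hq i (tl M (u m : ℕ → 𝕜)) (tl M ((-1 : 𝕜) • ((u m : ℕ → 𝕜) - v)))
    have h4 := S_mono hq0 i (tl_norm_le M ((-1 : 𝕜) • ((u m : ℕ → 𝕜) - v)))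
    rw [S_smul, norm_neg, norm_one, Real.one_rpow, one_mul] at h4
    linarith [hM i]
  refine ⟨⟨v, hsmall⟩, fun ε hε => ?_⟩
  obtain ⟨M, hM⟩ := hlim (ε ^ q / 2) (by positivity)
  refine ⟨M, fun n hn => N_lt 𝕜 hq0 hq hε ?_⟩
  have h1 : D q ((u n - ⟨v, hsmall⟩ : X 𝕜 hq0 hq) : ℕ → 𝕜) ≤ ε ^ q / 2 := D_le (hM n hn)
  have h2 : 0 < ε ^ q := by positivity
  linarith

/-- The basis. -/
noncomputable def x (n : ℕ) : X 𝕜 hq0 hq :=
  ⟨Pi.single n 1, small_of_support hq0 (M := n + 1) (fun k hk => by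
    rw [Pi.single_apply, if_neg (by omega)])⟩

/-- The coordinate functionals. -/
def f (n : ℕ) : X 𝕜 hq0 hq →ₗ[𝕜] 𝕜 := (LinearMap.proj n).comp (X 𝕜 hq0 hq).subtype

theorem f_apply (n : ℕ) (v : X 𝕜 hq0 hq) : f 𝕜 hq0 hq n v = (v : ℕ → 𝕜) n := rfl

theorem sum_x (A : Finset ℕ) (c : ℕ → 𝕜) (k : ℕ) :
    ((∑ n ∈ A, c n • x 𝕜 hq0 hq n : X 𝕜 hq0 hq) : ℕ → 𝕜) k = if k ∈ A then c k else 0 := by
  rw [← f_apply, map_sum]
  simp only [map_smul, f_apply, smul_eq_mul]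
  have : ∀ n, c n * (x 𝕜 hq0 hq n : ℕ → 𝕜) k = if k = n then c n else 0 := by
    intro n
    show c n * (Pi.single n (1 : 𝕜) : ℕ → 𝕜) k = _
    rw [Pi.single_apply]; split_ifs <;> simp
  simp only [this]
  rw [Finset.sum_ite_eq]

theorem D_sum_x {A : Finset ℕ} {m : ℕ} (hA : A.card ≤ m) :
    D q ((∑ n ∈ A, x 𝕜 hq0 hq n : X 𝕜 hq0 hq) : ℕ → 𝕜) ≤ (1 / q + 1) * (m : ℝ) ^ q := by
  classical
  apply D_le
  intro i
  have h1 : ∀ k, ‖((∑ n ∈ A, x 𝕜 hq0 hq n : X 𝕜 hq0 hq) : ℕ → 𝕜) k‖ ^ q =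
      if k ∈ A then 1 else 0 := by
    intro k
    have h2 := sum_x 𝕜 hq0 hq A (fun _ => (1 : 𝕜)) k
    simp only [one_smul] at h2
    rw [h2]
    split_ifs
    · simp
    · simp [Real.zero_rpow hq0.ne']
  unfold S
  simp only [h1, mul_ite, mul_one, mul_zero]
  rw [Finset.sum_ite_mem]
  have hinj : Set.InjOn i.1.2 (i.1.1 ∩ A : Finset ℕ) := fun a ha b hb hab =>
    i.2 (Finset.mem_inter.mp ha).1 (Finset.mem_inter.mp hb).1 hab
  have h3 : ∑ k ∈ i.1.1 ∩ A, w q (i.1.2 k) = ∑ e ∈ (i.1.1 ∩ A).image i.1.2, w q e := by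
    rw [Finset.sum_image hinj]
  rw [h3]
  apply sum_w_set hq hq0
  exact Finset.card_image_le.trans ((Finset.card_le_card Finset.inter_subset_right).trans hA)

theorem D_x (n : ℕ) : D q (x 𝕜 hq0 hq n : ℕ → 𝕜) = 1 := by
  classical
  have hv : ∀ k, ‖(x 𝕜 hq0 hq n : ℕ → 𝕜) k‖ ^ q = if k = n then 1 else 0 := by
    intro k
    show ‖(Pi.single n (1 : 𝕜) : ℕ → 𝕜) k‖ ^ q = _
    rw [Pi.single_apply]
    split_ifs
    · simp
    · simp [Real.zero_rpow hq0.ne']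
  apply le_antisymm
  · apply D_le
    intro i
    unfold S
    simp only [hv, mul_ite, mul_one, mul_zero]
    rw [Finset.sum_ite_eq']
    split_ifs
    · exact w_le_one hq _
    · exact zero_le_one
  · have := coord_le hq0 hq (x 𝕜 hq0 hq n).2 n
    rwa [hv, if_pos rfl] at this

theorem isBasis : IsBasis 𝕜 (N 𝕜 hq0 hq) (x 𝕜 hq0 hq) (f 𝕜 hq0 hq) := by
  refine ⟨?_, ?_, ⟨1, 1, one_pos, fun n => ?_⟩, ⟨1, fun n v => ?_⟩⟩
  · intro v ε hε
    have hε' : 0 < ε ^ q := by positivity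
    obtain ⟨M, hM⟩ := v.2 (ε ^ q / 2) (by positivity)
    refine ⟨∑ k ∈ Finset.range M, (v : ℕ → 𝕜) k • x 𝕜 hq0 hq k,
      Submodule.sum_mem _ (fun k _ => Submodule.smul_mem _ _ (Submodule.subset_span ⟨k, rfl⟩)), ?_⟩
    apply N_lt 𝕜 hq0 hq hε
    have h1 : ((v - ∑ k ∈ Finset.range M, (v : ℕ → 𝕜) k • x 𝕜 hq0 hq k : X 𝕜 hq0 hq) : ℕ → 𝕜) =
        tl M (v : ℕ → 𝕜) := by
      funext k
      show (v : ℕ → 𝕜) k - ((∑ k ∈ Finset.range M, (v : ℕ → 𝕜) k • x 𝕜 hq0 hq k :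
        X 𝕜 hq0 hq) : ℕ → 𝕜) k = _
      rw [sum_x]
      unfold tl
      simp only [Finset.mem_range]
      split_ifs <;> simp
    rw [h1]
    have := D_le hM
    linarith
  · intro k n
    rw [f_apply]
    show (Pi.single n (1 : 𝕜) : ℕ → 𝕜) k = _
    rw [Pi.single_apply]
  · unfold N
    rw [D_x, Real.one_rpow]
    exact ⟨le_rfl, le_rfl⟩
  · have := l1_bound hq0 hq v.2 {n}
    rw [Finset.sum_singleton] at this
    rw [one_mul]; exact this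

theorem isBidemocratic : IsBidemocratic 𝕜 (N 𝕜 hq0 hq) (x 𝕜 hq0 hq) (f 𝕜 hq0 hq) := by
  refine ⟨(1 / q + 1) ^ q⁻¹, ?_⟩
  intro m A B hA hB v
  have h1 : N 𝕜 hq0 hq (∑ n ∈ A, x 𝕜 hq0 hq n) ≤ (1 / q + 1) ^ q⁻¹ * m := by
    calc N 𝕜 hq0 hq (∑ n ∈ A, x 𝕜 hq0 hq n) ≤ ((1 / q + 1) * (m : ℝ) ^ q) ^ q⁻¹ :=
          Real.rpow_le_rpow (D_nonneg _) (D_sum_x 𝕜 hq0 hq hA) (by positivity)
      _ = (1 / q + 1) ^ q⁻¹ * m := by
          rw [Real.mul_rpow (by positivity) (by positivity),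
            Real.rpow_rpow_inv (by positivity) hq0.ne']
  have h2 : ‖∑ n ∈ B, f 𝕜 hq0 hq n v‖ ≤ N 𝕜 hq0 hq v :=
    (norm_sum_le _ _).trans (l1_bound hq0 hq v.2 B)
  exact mul_le_mul h1 h2 (norm_nonneg _) (by positivity)

/-! ### Subspaces -/

variable {𝕜}

theorem exists_vanishing {Y : Submodule 𝕜 (X 𝕜 hq0 hq)} (hY : ¬ FiniteDimensional 𝕜 Y) (M : ℕ) :
    ∃ y ∈ Y, y ≠ 0 ∧ ∀ k < M, (y : ℕ → 𝕜) k = 0 := by
  by_contra hcon
  push Not at hcon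
  apply hY
  let T : Y →ₗ[𝕜] (Fin M → 𝕜) :=
    LinearMap.pi (fun k => (f 𝕜 hq0 hq k).comp Y.subtype)
  have hT : Function.Injective T := by
    intro a b hab
    by_contra hne
    have hne' : (a : X 𝕜 hq0 hq) - (b : X 𝕜 hq0 hq) ≠ 0 :=
      fun h => hne (Subtype.ext (sub_eq_zero.mp h))
    obtain ⟨k, hk, hk'⟩ := hcon _ (Y.sub_mem a.2 b.2) hne'
    apply hk'
    have h1 : ((a : X 𝕜 hq0 hq) : ℕ → 𝕜) k = ((b : X 𝕜 hq0 hq) : ℕ → 𝕜) k := congrFun hab ⟨k, hk⟩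
    show ((a : X 𝕜 hq0 hq) : ℕ → 𝕜) k - ((b : X 𝕜 hq0 hq) : ℕ → 𝕜) k = 0
    rw [h1, sub_self]
  exact Module.Finite.of_injective T hT

theorem exists_normalized {Y : Submodule 𝕜 (X 𝕜 hq0 hq)} {y : X 𝕜 hq0 hq} (hy : y ∈ Y)
    (hne : 0 < D q (y : ℕ → 𝕜)) :
    ∃ c : 𝕜, ‖c‖ ^ q = (D q (y : ℕ → 𝕜))⁻¹ ∧ c • y ∈ Y ∧ D q ((c • y : X 𝕜 hq0 hq) : ℕ → 𝕜) = 1 := by
  have h1 : ‖(((D q (y : ℕ → 𝕜))⁻¹ ^ q⁻¹ : ℝ) : 𝕜)‖ ^ q = (D q (y : ℕ → 𝕜))⁻¹ := by
    rw [RCLike.norm_ofReal, abs_of_nonneg (by positivity), Real.rpow_inv_rpow (by positivity) hq0.ne']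
  refine ⟨(((D q (y : ℕ → 𝕜))⁻¹ ^ q⁻¹ : ℝ) : 𝕜), h1, Y.smul_mem _ hy, ?_⟩
  show D q ((((D q (y : ℕ → 𝕜))⁻¹ ^ q⁻¹ : ℝ) : 𝕜) • (y : ℕ → 𝕜)) = 1
  rw [D_smul, h1]
  field_simp

theorem D_pos {y : X 𝕜 hq0 hq} (h : y ≠ 0) : 0 < D q (y : ℕ → 𝕜) := by
  rcases eq_or_lt_of_le (D_nonneg (q := q) (y : ℕ → 𝕜)) with h0 | h0
  · exact absurd (Subtype.ext (eq_zero_of_D 𝕜 y.2 h0.symm hq0 hq)) h
  · exact h0

theorem exists_unit {Y : Submodule 𝕜 (X 𝕜 hq0 hq)} (hY : ¬ FiniteDimensional 𝕜 Y) (M : ℕ) :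
    ∃ y ∈ Y, D q (y : ℕ → 𝕜) = 1 ∧ ∀ k < M, (y : ℕ → 𝕜) k = 0 := by
  obtain ⟨y, hy, hne, hk⟩ := exists_vanishing hq0 hq hY M
  obtain ⟨c, -, h2, h3⟩ := exists_normalized hq0 hq hy (D_pos hq0 hq hne)
  refine ⟨c • y, h2, h3, fun k hk' => ?_⟩
  show c • (y : ℕ → 𝕜) k = 0
  rw [hk k hk', smul_zero]

theorem norm_add_rpow_le (hq0 : 0 < q) (hq : q < 1) (a b : 𝕜) : ‖a + b‖ ^ q ≤ ‖a‖ ^ q + ‖b‖ ^ q :=
  (Real.rpow_le_rpow (norm_nonneg _) (norm_add_le _ _) hq0.le).trans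
    (Real.rpow_add_le_add_rpow (norm_nonneg _) (norm_nonneg _) hq0.le hq.le)

theorem norm_rpow_le_add (hq0 : 0 < q) (hq : q < 1) (a b : 𝕜) :
    ‖b‖ ^ q ≤ ‖a + b‖ ^ q + ‖a‖ ^ q := by
  have h := norm_add_rpow_le hq0 hq (a + b) (-a)
  rw [norm_neg] at h
  have h2 : a + b + -a = b := by ring
  rwa [h2] at h

/-- Flat vectors. -/
theorem exists_flat {Y : Submodule 𝕜 (X 𝕜 hq0 hq)} (hY : ¬ FiniteDimensional 𝕜 Y) (M : ℕ) {δ : ℝ}
    (hδ : 0 < δ) : ∃ y ∈ Y, D q (y : ℕ → 𝕜) = 1 ∧ (∀ k < M, (y : ℕ → 𝕜) k = 0) ∧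
      ∀ k, ‖(y : ℕ → 𝕜) k‖ ^ q ≤ δ := by
  classical
  by_contra hcon
  push Not at hcon
  have claim : ∀ n : ℕ, ∃ z ∈ Y, (∀ k < M, (z : ℕ → 𝕜) k = 0) ∧ (∀ k, ‖(z : ℕ → 𝕜) k‖ ^ q ≤ 2) ∧
      ∃ B : Finset ℕ, B.card = n ∧ ∀ k ∈ B, δ / 2 ≤ ‖(z : ℕ → 𝕜) k‖ ^ q := by
    intro n
    induction n with
    | zero =>
      refine ⟨0, Y.zero_mem, fun _ _ => rfl, fun k => ?_, ∅, rfl, by simp⟩
      show ‖(0 : 𝕜)‖ ^ q ≤ 2
      rw [norm_zero, Real.zero_rpow hq0.ne']; norm_num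
    | succ n ih =>
      obtain ⟨z, hz, hz0, hz2, B, hBc, hB⟩ := ih
      obtain ⟨M1, hM1⟩ := z.2 (δ / 2) (by positivity)
      obtain ⟨M2, hM2⟩ : ∃ M2, ∀ k ∈ B, k < M2 :=
        ⟨B.sup id + 1, fun k hk => Nat.lt_succ_of_le (Finset.le_sup (f := id) hk)⟩
      set M' := max M (max M1 M2) with hM'
      obtain ⟨y, hy, hy1, hy0⟩ := exists_unit hq0 hq hY M'
      obtain ⟨k0, hk0⟩ := hcon y hy hy1 (fun k hk => hy0 k (lt_of_lt_of_le hk (le_max_left _ _)))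
      have hk0M : M' ≤ k0 := by
        by_contra hlt
        rw [hy0 k0 (by omega), norm_zero, Real.zero_rpow hq0.ne'] at hk0
        linarith
      have hyle : ∀ k, ‖(y : ℕ → 𝕜) k‖ ^ q ≤ 1 := fun k => by
        rw [← hy1]; exact coord_le hq0 hq y.2 k
      have hδ1 : δ ≤ 1 := hk0.le.trans (hyle k0)
      have htail : ∀ k, M' ≤ k → ‖(z : ℕ → 𝕜) k‖ ^ q ≤ δ / 2 := by
        intro k hk
        have h1 := hM1 (single k)
        rw [S_single] at h1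
        have h2 : tl M1 (z : ℕ → 𝕜) k = (z : ℕ → 𝕜) k := by
          unfold tl
          rw [if_neg]
          have : M1 ≤ M' := (le_max_left _ _).trans (le_max_right _ _)
          omega
        rwa [h2] at h1
      have hadd : ∀ k, ((z + y : X 𝕜 hq0 hq) : ℕ → 𝕜) k = (z : ℕ → 𝕜) k + (y : ℕ → 𝕜) k :=
        fun _ => rfl
      refine ⟨z + y, Y.add_mem hz hy, ?_, ?_, insert k0 B, ?_, ?_⟩
      · intro k hk
        rw [hadd, hz0 k hk, hy0 k (lt_of_lt_of_le hk (le_max_left _ _)), add_zero]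
      · intro k
        rw [hadd]
        by_cases hk : k < M'
        · rw [hy0 k hk, add_zero]; exact hz2 k
        · have := norm_add_rpow_le hq0 hq ((z : ℕ → 𝕜) k) ((y : ℕ → 𝕜) k)
          linarith [htail k (by omega), hyle k]
      · rw [Finset.card_insert_of_notMem, hBc]
        intro h
        have h1 := hM2 k0 h
        have h2 : M2 ≤ M' := (le_max_right _ _).trans (le_max_right _ _)
        omega
      · intro k hk
        rw [hadd]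
        rcases Finset.mem_insert.mp hk with rfl | hk
        · have := norm_rpow_le_add hq0 hq ((z : ℕ → 𝕜) k) ((y : ℕ → 𝕜) k)
          linarith [htail k hk0M]
        · have h2 : M2 ≤ M' := (le_max_right _ _).trans (le_max_right _ _)
          rw [hy0 k (lt_of_lt_of_le (hM2 k hk) h2), add_zero]
          exact hB k hk
  obtain ⟨n, hn⟩ := exists_nat_gt ((4 / δ ^ 2) ^ q⁻¹)
  have hn' : 4 / δ ^ 2 < (n : ℝ) ^ q := by
    calc 4 / δ ^ 2 = ((4 / δ ^ 2) ^ q⁻¹) ^ q := (Real.rpow_inv_rpow (by positivity) hq0.ne').symm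
      _ < (n : ℝ) ^ q := Real.rpow_lt_rpow (by positivity) hn hq0
  obtain ⟨z, hz, hz0, hz2, B, hBc, hB⟩ := claim n
  have h1 := D_lower_card hq0 hq z.2 (by positivity : 0 ≤ δ / 2) hB
  rw [hBc] at h1
  have hpos : 0 < 4 / δ ^ 2 := by positivity
  have h2 : 2 / δ < D q (z : ℕ → 𝕜) := by
    refine lt_of_lt_of_le ?_ h1
    calc 2 / δ = δ / 2 * (4 / δ ^ 2) := by field_simp; ring
      _ < δ / 2 * (n : ℝ) ^ q := mul_lt_mul_of_pos_left hn' (by positivity)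
  have hDpos : 0 < D q (z : ℕ → 𝕜) := lt_trans (by positivity) h2
  obtain ⟨c, hc, hcY, hcD⟩ := exists_normalized hq0 hq hz hDpos
  obtain ⟨k, hk⟩ := hcon (c • z) hcY hcD (fun k hk => by
    show c • (z : ℕ → 𝕜) k = 0
    rw [hz0 k hk, smul_zero])
  have h3 : ‖((c • z : X 𝕜 hq0 hq) : ℕ → 𝕜) k‖ ^ q = (D q (z : ℕ → 𝕜))⁻¹ * ‖(z : ℕ → 𝕜) k‖ ^ q := by
    show ‖c • (z : ℕ → 𝕜) k‖ ^ q = _
    rw [norm_smul, Real.mul_rpow (norm_nonneg _) (norm_nonneg _), hc]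
  rw [h3] at hk
  have h4 : δ * D q (z : ℕ → 𝕜) < 2 := by
    have h5 : δ < (D q (z : ℕ → 𝕜))⁻¹ * 2 :=
      hk.trans_le (mul_le_mul_of_nonneg_left (hz2 k) (by positivity))
    have h6 := mul_lt_mul_of_pos_right h5 hDpos
    have h7 : (D q (z : ℕ → 𝕜))⁻¹ * 2 * D q (z : ℕ → 𝕜) = 2 := by field_simp
    linarith
  have h5 : 2 < δ * D q (z : ℕ → 𝕜) := by
    have := mul_lt_mul_of_pos_left h2 hδ
    rwa [mul_div_cancel₀ _ hδ.ne'] at this
  linarith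

/-- One step: adding a very flat vector increases the norm substantially. -/
theorem step {Y : Submodule 𝕜 (X 𝕜 hq0 hq)} (hY : ¬ FiniteDimensional 𝕜 Y) {z : X 𝕜 hq0 hq}
    {i : Idx} {r : ℝ} (hz : r ≤ S q i (z : ℕ → 𝕜)) :
    ∃ y ∈ Y, D q (y : ℕ → 𝕜) = 1 ∧ ∃ i' : Idx, r + 1 / 16 ≤ S q i' ((z + y : X 𝕜 hq0 hq) : ℕ → 𝕜) := by
  classical
  obtain ⟨⟨B, ρ⟩, hρ⟩ := i
  change Set.InjOn ρ (B : Set ℕ) at hρ
  obtain ⟨M1, hM1⟩ := z.2 (1 / 16) (by norm_num)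
  obtain ⟨M2, hM2⟩ : ∃ M2, ∀ k ∈ B, k < M2 :=
    ⟨B.sup id + 1, fun k hk => Nat.lt_succ_of_le (Finset.le_sup (f := id) hk)⟩
  obtain ⟨T, hT⟩ : ∃ T, ∀ k ∈ B, ρ k < T :=
    ⟨B.sup ρ + 1, fun k hk => Nat.lt_succ_of_le (Finset.le_sup (f := ρ) hk)⟩
  set M' := max M1 M2 with hM'
  obtain ⟨y, hy, hy1, hy0, hyδ⟩ := exists_flat hq0 hq hY M'
    (by positivity : (0 : ℝ) < 1 / (4 * ((T : ℝ) + 1)))
  refine ⟨y, hy, hy1, ?_⟩
  obtain ⟨⟨⟨B', ρ'⟩, hρ'⟩, hi'⟩ : ∃ i' : Idx, 1 / 2 < S q i' (y : ℕ → 𝕜) := by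
    apply exists_lt_of_lt_ciSup
    show 1 / 2 < D q (y : ℕ → 𝕜)
    rw [hy1]; norm_num
  change Set.InjOn ρ' (B' : Set ℕ) at hρ'
  set B'' := B'.filter (fun k => M' ≤ k) with hB''
  have hB''mem : ∀ k ∈ B'', k ∈ B' ∧ M' ≤ k := fun k hk => Finset.mem_filter.mp hk
  have hBlt : ∀ k ∈ B, k < M' := fun k hk => lt_of_lt_of_le (hM2 k hk) (le_max_right _ _)
  let σ : ℕ → ℕ := fun k => if k < M' then ρ k else ρ' k + T
  have hσB : ∀ k ∈ B, σ k = ρ k := fun k hk => if_pos (hBlt k hk)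
  have hσB'' : ∀ k ∈ B'', σ k = ρ' k + T := fun k hk => if_neg (by
    have := (hB''mem k hk).2; omega)
  have hσ : Set.InjOn σ ((B ∪ B'' : Finset ℕ) : Set ℕ) := by
    intro a ha b hb hab
    rw [Finset.mem_coe, Finset.mem_union] at ha hb
    rcases ha with ha | ha <;> rcases hb with hb | hb
    · rw [hσB a ha, hσB b hb] at hab
      exact hρ ha hb hab
    · rw [hσB a ha, hσB'' b hb] at hab
      have := hT a ha; omega
    · rw [hσB'' a ha, hσB b hb] at hab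
      have := hT b hb; omega
    · rw [hσB'' a ha, hσB'' b hb] at hab
      exact hρ' (hB''mem a ha).1 (hB''mem b hb).1 (by omega)
  have hdisj : Disjoint B B'' := by
    rw [Finset.disjoint_left]
    intro a ha hb
    have h1 := hBlt a ha
    have h2 := (hB''mem a hb).2
    omega
  refine ⟨⟨(B ∪ B'', σ), hσ⟩, ?_⟩
  have hadd : ∀ k, ((z + y : X 𝕜 hq0 hq) : ℕ → 𝕜) k = (z : ℕ → 𝕜) k + (y : ℕ → 𝕜) k :=
    fun _ => rfl
  have hsplit : S q ⟨(B ∪ B'', σ), hσ⟩ ((z + y : X 𝕜 hq0 hq) : ℕ → 𝕜) =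
      ∑ k ∈ B, w q (σ k) * ‖((z + y : X 𝕜 hq0 hq) : ℕ → 𝕜) k‖ ^ q +
        ∑ k ∈ B'', w q (σ k) * ‖((z + y : X 𝕜 hq0 hq) : ℕ → 𝕜) k‖ ^ q :=
    Finset.sum_union hdisj
  have hfirst : ∑ k ∈ B, w q (σ k) * ‖((z + y : X 𝕜 hq0 hq) : ℕ → 𝕜) k‖ ^ q =
      S q ⟨(B, ρ), hρ⟩ (z : ℕ → 𝕜) := by
    refine Finset.sum_congr rfl (fun k hk => ?_)
    rw [hσB k hk, hadd, hy0 k (hBlt k hk), add_zero]
  -- the second sum
  have hA2 : ∑ k ∈ B'', w q (ρ' k + T) * ‖tl M' (z : ℕ → 𝕜) k‖ ^ q ≤ 1 / 16 := by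
    have hinj : Set.InjOn (fun k => ρ' k + T) (B'' : Set ℕ) := by
      intro a ha b hb hab
      exact hρ' (hB''mem a ha).1 (hB''mem b hb).1 (by simpa using hab)
    have h1 := S_mono (q := q) hq0 ⟨(B'', fun k => ρ' k + T), hinj⟩
      (tl_norm_mono (le_max_left M1 M2) (z : ℕ → 𝕜))
    exact h1.trans (hM1 _)
  have hsecond : ∑ k ∈ B'', w q (ρ' k + T) * ‖(y : ℕ → 𝕜) k‖ ^ q -
      ∑ k ∈ B'', w q (ρ' k + T) * ‖tl M' (z : ℕ → 𝕜) k‖ ^ q ≤
        ∑ k ∈ B'', w q (σ k) * ‖((z + y : X 𝕜 hq0 hq) : ℕ → 𝕜) k‖ ^ q := by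
    rw [← Finset.sum_sub_distrib]
    refine Finset.sum_le_sum (fun k hk => ?_)
    rw [hσB'' k hk, ← mul_sub]
    apply mul_le_mul_of_nonneg_left _ (w_pos _).le
    have h1 : tl M' (z : ℕ → 𝕜) k = (z : ℕ → 𝕜) k := by
      unfold tl
      rw [if_neg]
      have := (hB''mem k hk).2
      omega
    rw [h1, hadd]
    have := norm_rpow_le_add hq0 hq ((z : ℕ → 𝕜) k) ((y : ℕ → 𝕜) k)
    linarith
  have hall : S q ⟨(B', ρ'), hρ'⟩ (y : ℕ → 𝕜) = ∑ k ∈ B'', w q (ρ' k) * ‖(y : ℕ → 𝕜) k‖ ^ q := by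
    rw [hB'', Finset.sum_filter]
    refine Finset.sum_congr rfl (fun k _ => ?_)
    split_ifs with h
    · rfl
    · rw [hy0 k (by omega), norm_zero, Real.zero_rpow hq0.ne', mul_zero]
  have hlow : ∑ k ∈ B''.filter (fun k => ρ' k < T), w q (ρ' k) * ‖(y : ℕ → 𝕜) k‖ ^ q ≤ 1 / 4 := by
    have hcard : (B''.filter (fun k => ρ' k < T)).card ≤ T := by
      have h1 : ((B''.filter (fun k => ρ' k < T)).image ρ').card =
          (B''.filter (fun k => ρ' k < T)).card :=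
        Finset.card_image_of_injOn (fun a ha b hb hab =>
          hρ' (hB''mem a (Finset.mem_filter.mp ha).1).1 (hB''mem b (Finset.mem_filter.mp hb).1).1 hab)
      rw [← h1]
      calc ((B''.filter (fun k => ρ' k < T)).image ρ').card ≤ (Finset.range T).card := by
            apply Finset.card_le_card
            intro a ha
            obtain ⟨b, hb, rfl⟩ := Finset.mem_image.mp ha
            exact Finset.mem_range.mpr (Finset.mem_filter.mp hb).2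
        _ = T := Finset.card_range T
    calc ∑ k ∈ B''.filter (fun k => ρ' k < T), w q (ρ' k) * ‖(y : ℕ → 𝕜) k‖ ^ q
        ≤ ∑ k ∈ B''.filter (fun k => ρ' k < T), 1 * (1 / (4 * ((T : ℝ) + 1))) :=
          Finset.sum_le_sum (fun k _ => mul_le_mul (w_le_one hq _) (hyδ k) (by positivity)
            zero_le_one)
      _ = ((B''.filter (fun k => ρ' k < T)).card : ℝ) * (1 / (4 * ((T : ℝ) + 1))) := by
          rw [Finset.sum_const, nsmul_eq_mul, one_mul]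
      _ ≤ (T : ℝ) * (1 / (4 * ((T : ℝ) + 1))) :=
          mul_le_mul_of_nonneg_right (by exact_mod_cast hcard) (by positivity)
      _ ≤ 1 / 4 := by
          rw [mul_one_div, div_le_div_iff₀ (by positivity) (by norm_num)]
          linarith
  have hhigh : (∑ k ∈ B'', w q (ρ' k) * ‖(y : ℕ → 𝕜) k‖ ^ q -
      ∑ k ∈ B''.filter (fun k => ρ' k < T), w q (ρ' k) * ‖(y : ℕ → 𝕜) k‖ ^ q) / 2 ≤
        ∑ k ∈ B'', w q (ρ' k + T) * ‖(y : ℕ → 𝕜) k‖ ^ q := by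
    have h1 := Finset.sum_filter_add_sum_filter_not B'' (fun k => ρ' k < T)
      (fun k => w q (ρ' k) * ‖(y : ℕ → 𝕜) k‖ ^ q)
    rw [← h1, add_sub_cancel_left, Finset.sum_div]
    calc ∑ k ∈ B''.filter (fun k => ¬ ρ' k < T), w q (ρ' k) * ‖(y : ℕ → 𝕜) k‖ ^ q / 2
        ≤ ∑ k ∈ B''.filter (fun k => ¬ ρ' k < T), w q (ρ' k + T) * ‖(y : ℕ → 𝕜) k‖ ^ q := by
          refine Finset.sum_le_sum (fun k hk => ?_)
          have h2 : T ≤ ρ' k := not_lt.mp (Finset.mem_filter.mp hk).2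
          have h3 := w_double hq0 hq h2
          have h4 : 0 ≤ ‖(y : ℕ → 𝕜) k‖ ^ q := by positivity
          calc w q (ρ' k) * ‖(y : ℕ → 𝕜) k‖ ^ q / 2 = w q (ρ' k) / 2 * ‖(y : ℕ → 𝕜) k‖ ^ q := by ring
            _ ≤ _ := mul_le_mul_of_nonneg_right h3 h4
      _ ≤ _ := Finset.sum_le_sum_of_subset_of_nonneg (Finset.filter_subset _ _)
          (fun _ _ _ => mul_nonneg (w_pos _).le (by positivity))
  rw [hsplit, hfirst]
  rw [hall] at hi'
  linarith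

/-- No infinite-dimensional subspace is `p`-normable for `p > q`. -/
theorem no_pnorm {p : ℝ} (hp : q < p) (Y : Submodule 𝕜 (X 𝕜 hq0 hq))
    (hY : ¬ FiniteDimensional 𝕜 Y) : ¬ HasEquivalentPNorm 𝕜 (N 𝕜 hq0 hq) p Y := by
  rintro ⟨G, C, hC, hG, hGN⟩
  have hp0 : 0 < p := hq0.trans hp
  have hC0 : 0 < C := lt_of_lt_of_le one_pos hC
  have claim : ∀ n : ℕ, ∃ z : Y, G z ^ p ≤ n * C ^ p ∧
      ∃ i, (n : ℝ) / 16 ≤ S q i ((z : X 𝕜 hq0 hq) : ℕ → 𝕜) := by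
    intro n
    induction n with
    | zero =>
      refine ⟨0, ?_, ⟨Classical.arbitrary Idx, ?_⟩⟩
      · have h1 : G 0 = 0 := by
          have := hG.quasiNorm.smul 0 0
          rwa [smul_zero, norm_zero, zero_mul] at this
        rw [h1, Real.zero_rpow hp0.ne']; simp
      · simp only [Nat.cast_zero, zero_div]; exact S_nonneg _ _
    | succ n ih =>
      obtain ⟨z, hz, i, hi⟩ := ih
      obtain ⟨y, hy, hy1, i', hi'⟩ := step hq0 hq hY hi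
      refine ⟨z + ⟨y, hy⟩, ?_, i', ?_⟩
      · have h1 := hG.add z ⟨y, hy⟩
        have h2 : G ⟨y, hy⟩ ≤ C := by
          have h3 := (hGN ⟨y, hy⟩).2
          have h4 : N 𝕜 hq0 hq ((⟨y, hy⟩ : Y) : X 𝕜 hq0 hq) = 1 := by
            unfold N
            rw [show (((⟨y, hy⟩ : Y) : X 𝕜 hq0 hq) : ℕ → 𝕜) = (y : ℕ → 𝕜) from rfl, hy1,
              Real.one_rpow]
          rwa [h4, mul_one] at h3
        have h5 : G ⟨y, hy⟩ ^ p ≤ C ^ p := Real.rpow_le_rpow (hG.quasiNorm.nonneg _) h2 hp0.le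
        push_cast
        linarith
      · push_cast
        have : ((n : ℝ) + 1) / 16 = (n : ℝ) / 16 + 1 / 16 := by ring
        rw [this]; exact hi'
  -- comparison of growth
  have hgrow : ∀ m : ℕ, 0 < m → (m : ℝ) ^ (p / q - 1) ≤ 16 * C ^ p * C ^ p := by
    intro m hm
    have hm' : (0 : ℝ) < m := by exact_mod_cast hm
    obtain ⟨z, hz, i, hi⟩ := claim (16 * m)
    have h1 : (m : ℝ) ≤ N 𝕜 hq0 hq z ^ q := by
      rw [N_rpow]
      refine le_trans ?_ (S_le_D hq0 hq (z : X 𝕜 hq0 hq).2 i)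
      have : ((16 * m : ℕ) : ℝ) / 16 = m := by push_cast; ring
      rwa [this] at hi
    have h2 : (m : ℝ) ^ (p / q) ≤ N 𝕜 hq0 hq z ^ p := by
      calc (m : ℝ) ^ (p / q) ≤ (N 𝕜 hq0 hq z ^ q) ^ (p / q) :=
            Real.rpow_le_rpow hm'.le h1 (by positivity)
        _ = N 𝕜 hq0 hq z ^ p := by
            rw [← Real.rpow_mul (N_nonneg 𝕜 hq0 hq _)]
            congr 1; field_simp
    have h3 : N 𝕜 hq0 hq z ≤ C * G z := by
      have := mul_le_mul_of_nonneg_left (hGN z).1 hC0.le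
      rwa [← mul_assoc, mul_inv_cancel₀ hC0.ne', one_mul] at this
    have h4 : N 𝕜 hq0 hq z ^ p ≤ C ^ p * G z ^ p := by
      rw [← Real.mul_rpow hC0.le (hG.quasiNorm.nonneg _)]
      exact Real.rpow_le_rpow (N_nonneg 𝕜 hq0 hq _) h3 hp0.le
    have h5 : (m : ℝ) ^ (p / q) ≤ C ^ p * ((16 * m : ℕ) * C ^ p) :=
      h2.trans (h4.trans (mul_le_mul_of_nonneg_left hz (by positivity)))
    rw [Real.rpow_sub_one hm'.ne', div_le_iff₀ hm']
    refine h5.trans (le_of_eq ?_)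
    push_cast; ring
  have he : 0 < p / q - 1 := by
    rw [sub_pos, one_lt_div hq0]; exact hp
  obtain ⟨m, hm⟩ := exists_nat_gt ((16 * C ^ p * C ^ p) ^ (p / q - 1)⁻¹)
  have hK : 0 < 16 * C ^ p * C ^ p := by positivity
  have hm0 : (0 : ℝ) < m := lt_trans (by positivity) hm
  have h1 := hgrow m (by exact_mod_cast hm0)
  have h2 : 16 * C ^ p * C ^ p < (m : ℝ) ^ (p / q - 1) := by
    calc 16 * C ^ p * C ^ p = ((16 * C ^ p * C ^ p) ^ (p / q - 1)⁻¹) ^ (p / q - 1) :=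
          (Real.rpow_inv_rpow hK.le he.ne').symm
      _ < _ := Real.rpow_lt_rpow (by positivity) hm he
  linarith

end Space

/-- For every `0 < q < 1` there is a `q`-Banach space with a bidemocratic basis such that no
infinite-dimensional subspace has an equivalent `p`-norm, for any `p > q`. -/
theorem result (𝕜 : Type) [RCLike 𝕜] (q : ℝ) (hq0 : 0 < q) (hq : q < 1) :
    ∃ (X : Type) (_ : AddCommGroup X) (_ : Module 𝕜 X) (N : X → ℝ),
      IsPNorm 𝕜 q N ∧ IsCompleteFor N ∧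
      (∃ (x : ℕ → X) (f : ℕ → X →ₗ[𝕜] 𝕜), IsBasis 𝕜 N x f ∧ IsBidemocratic 𝕜 N x f) ∧
      ∀ p : ℝ, q < p → ∀ Y : Submodule 𝕜 X, ¬ FiniteDimensional 𝕜 Y →
        ¬ HasEquivalentPNorm 𝕜 N p Y :=
  ⟨X 𝕜 hq0 hq, inferInstance, inferInstance, N 𝕜 hq0 hq, isPNorm 𝕜 hq0 hq, isComplete 𝕜 hq0 hq,
    ⟨x 𝕜 hq0 hq, f 𝕜 hq0 hq, isBasis 𝕜 hq0 hq, isBidemocratic 𝕜 hq0 hq⟩,
    fun _ hp Y hY => no_pnorm hq0 hq hp Y hY⟩

end Pool.Agent.Results.MP_c4013e_an.NoPNormableSubspace
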